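import Mathlib

set_option autoImplicit false

namespace Pool.Agent.SynDes

/-- The number of descents of a permutation `π` of `Fin n` written in one-line notation
`π 0, π 1, ..., π (n-1)`: the number of positions `i` with `i + 1 < n` and `π (i+1) < π i`. -/
noncomputable def des {n : ℕ} (π : Equiv.Perm (Fin n)) : ℕ :=
  Nat.card {i : Fin n // ∃ h : (i : ℕ) + 1 < n, π ⟨(i : ℕ) + 1, h⟩ < π i}

/-- the number of even permutations of `n` letters with exactly `k` descents -/
noncomputable def evenDes (n k : ℕ) : ℕ :=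
  Nat.card {π : Equiv.Perm (Fin n) // π ∈ alternatingGroup (Fin n) ∧ des π = k}

/-- the number of odd permutations of `n` letters with exactly `k` descents -/
noncomputable def oddDes (n k : ℕ) : ℕ :=
  Nat.card {π : Equiv.Perm (Fin n) // π ∉ alternatingGroup (Fin n) ∧ des π = k}

/-- Strong synchronisation of the sequences `(a k)` and `(b k)`, `0 ≤ k ≤ N`. -/
def StronglySynchronised (N : ℕ) (a b : ℕ → ℕ) : Prop :=
  ∀ k : ℕ, 1 ≤ k → k ≤ N - 1 →
    max (a (k + 1)) (b (k + 1)) * max (a (k - 1)) (b (k - 1)) ≤ (min (a k) (b k)) ^ 2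

end Pool.Agent.SynDes
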