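import Mathlib
import Pool.Agent.MP_ab4491_co.Defs

set_option autoImplicit false

namespace Pool.Agent.SynDes

open Finset Polynomial

theorem des_eq {n : ℕ} (π : Equiv.Perm (Fin (n + 1))) :
    des π = ∑ i : Fin n, if π i.succ < π i.castSucc then 1 else 0 := by
  have e : {i : Fin (n + 1) // ∃ h : (i : ℕ) + 1 < n + 1, π ⟨(i : ℕ) + 1, h⟩ < π i} ≃
      {i : Fin n // π i.succ < π i.castSucc} :=
    { toFun := fun x => ⟨⟨(x.1 : ℕ), by obtain ⟨h, _⟩ := x.2; omega⟩, by
        obtain ⟨h, h'⟩ := x.2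
        exact h'⟩
      invFun := fun x => ⟨x.1.castSucc, by
        refine ⟨by simp, ?_⟩
        exact x.2⟩
      left_inv := fun x => by
        apply Subtype.ext
        apply Fin.ext
        rfl
      right_inv := fun x => by
        apply Subtype.ext
        apply Fin.ext
        rfl }
  unfold des
  rw [Nat.card_congr e, Nat.card_eq_fintype_card, Fintype.card_subtype, Finset.card_filter]

/-- insertion of a first letter -/
def ins {n : ℕ} (j : Fin (n + 1)) (τ : Equiv.Perm (Fin n)) : Equiv.Perm (Fin (n + 1)) :=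
  (Equiv.Perm.decomposeFin.symm (0, τ)).trans j.cycleRange.symm

theorem ins_zero {n : ℕ} (j : Fin (n + 1)) (τ : Equiv.Perm (Fin n)) : ins j τ 0 = j := by
  simp [ins]

theorem ins_succ {n : ℕ} (j : Fin (n + 1)) (τ : Equiv.Perm (Fin n)) (i : Fin n) :
    ins j τ i.succ = j.succAbove (τ i) := by
  simp [ins]

theorem sign_ins {n : ℕ} (j : Fin (n + 1)) (τ : Equiv.Perm (Fin n)) :
    Equiv.Perm.sign (ins j τ) = (-1) ^ (j : ℕ) * Equiv.Perm.sign τ := by
  unfold ins
  rw [Equiv.Perm.sign_trans, Equiv.Perm.decomposeFin.symm_sign, Equiv.Perm.sign_symm,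
    Fin.sign_cycleRange]
  simp

theorem des_ins {n : ℕ} (j : Fin (n + 2)) (τ : Equiv.Perm (Fin (n + 1))) :
    des (ins j τ) = (if ((τ 0 : Fin (n + 1)) : ℕ) < (j : ℕ) then 1 else 0) + des τ := by
  rw [des_eq, des_eq, Fin.sum_univ_succ]
  congr 1
  · rw [ins_succ]
    have : (Fin.castSucc (0 : Fin (n + 1))) = (0 : Fin (n + 2)) := rfl
    rw [this, ins_zero]
    by_cases h : ((τ 0 : Fin (n + 1)) : ℕ) < (j : ℕ)
    · rw [if_pos h, if_pos]
      rw [Fin.succAbove_of_castSucc_lt _ _ (by simpa [Fin.lt_def] using h)]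
      simpa [Fin.lt_def] using h
    · rw [if_neg h, if_neg]
      rw [Fin.succAbove_of_le_castSucc _ _ (by simpa [Fin.le_def] using h)]
      simp only [Fin.lt_def, Fin.val_succ]
      omega
  · apply Finset.sum_congr rfl
    intro i _
    rw [ins_succ]
    have : (Fin.castSucc (i.succ)) = (Fin.castSucc i).succ := by
      apply Fin.ext; simp
    rw [this, ins_succ]
    simp

theorem ins_bijective (n : ℕ) :
    Function.Bijective (fun x : Fin (n + 1) × Equiv.Perm (Fin n) => ins x.1 x.2) := by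
  rw [Fintype.bijective_iff_injective_and_card]
  constructor
  · rintro ⟨j, τ⟩ ⟨j', τ'⟩ h
    simp only at h
    have h0 : j = j' := by
      have := congrArg (fun σ : Equiv.Perm (Fin (n + 1)) => σ 0) h
      simpa [ins_zero] using this
    subst h0
    have h1 : τ = τ' := by
      ext i
      have := congrArg (fun σ : Equiv.Perm (Fin (n + 1)) => σ i.succ) h
      simp only [ins_succ] at this
      rw [Fin.succAbove_right_injective this]
    rw [h1]
  · rw [Fintype.card_prod, Fintype.card_perm, Fintype.card_perm, Fintype.card_fin,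
      Fintype.card_fin, Nat.factorial_succ]

/-- unsigned weighted descent sums, weighted by the first letter; `n + 1` letters -/
noncomputable def T (n : ℕ) (w : ℕ → ℤ[X]) : ℤ[X] :=
  ∑ π : Equiv.Perm (Fin (n + 1)), w (π 0 : Fin (n + 1)) * X ^ des π

/-- signed weighted descent sums -/
noncomputable def Ts (n : ℕ) (w : ℕ → ℤ[X]) : ℤ[X] :=
  ∑ π : Equiv.Perm (Fin (n + 1)),
    ((Equiv.Perm.sign π : ℤ) : ℤ[X]) * (w (π 0 : Fin (n + 1)) * X ^ des π)

theorem T_succ (n : ℕ) (w : ℕ → ℤ[X]) :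
    T (n + 1) w = ∑ j ∈ range (n + 2), w j * T n (fun i => if i < j then X else 1) := by
  unfold T
  rw [← (Equiv.ofBijective _ (ins_bijective (n + 1))).sum_comp, Fintype.sum_prod_type,
    Finset.sum_range]
  apply Finset.sum_congr rfl
  intro j _
  rw [Finset.mul_sum]
  apply Finset.sum_congr rfl
  intro τ _
  rw [Equiv.ofBijective_apply]
  simp only
  rw [ins_zero, des_ins, pow_add]
  split_ifs <;> simp

theorem Ts_succ (n : ℕ) (w : ℕ → ℤ[X]) :
    Ts (n + 1) w =
      ∑ j ∈ range (n + 2), (-1) ^ j * w j * Ts n (fun i => if i < j then X else 1) := by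
  unfold Ts
  rw [← (Equiv.ofBijective _ (ins_bijective (n + 1))).sum_comp, Fintype.sum_prod_type,
    Finset.sum_range]
  apply Finset.sum_congr rfl
  intro j _
  rw [Finset.mul_sum]
  apply Finset.sum_congr rfl
  intro τ _
  rw [Equiv.ofBijective_apply]
  simp only
  rw [ins_zero, des_ins, pow_add, sign_ins]
  push_cast
  split_ifs <;> ring

theorem T_zero (w : ℕ → ℤ[X]) : T 0 w = w 0 := by
  unfold T
  have : ∀ π : Equiv.Perm (Fin (0 + 1)), w (π 0 : Fin (0 + 1)) * X ^ des π = w 0 := by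
    intro π
    rw [des_eq]
    have h0 : ((π 0 : Fin (0 + 1)) : ℕ) = 0 := by omega
    rw [h0]
    simp
  rw [Finset.sum_congr rfl (fun π _ => this π)]
  simp

theorem Ts_zero (w : ℕ → ℤ[X]) : Ts 0 w = w 0 := by
  unfold Ts
  have : ∀ π : Equiv.Perm (Fin (0 + 1)),
      ((Equiv.Perm.sign π : ℤ) : ℤ[X]) * (w (π 0 : Fin (0 + 1)) * X ^ des π) = w 0 := by
    intro π
    rw [des_eq]
    have h0 : ((π 0 : Fin (0 + 1)) : ℕ) = 0 := by omega
    have h1 : π = 1 := Equiv.ext (fun i => Fin.ext (by omega))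
    rw [h0, h1]
    simp
  rw [Finset.sum_congr rfl (fun π _ => this π)]
  simp

end Pool.Agent.SynDes
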