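import Mathlib
import Pool.Agent.MP_ab4491_co.PermDec

set_option autoImplicit false

namespace Pool.Agent.SynDes

open Finset Polynomial

/-- the step weight -/
noncomputable def step (j i : ℕ) : ℤ[X] := if i < j then X else 1

theorem T_congr (m : ℕ) {w w' : ℕ → ℤ[X]} (h : ∀ i ≤ m, w i = w' i) : T m w = T m w' := by
  unfold T
  apply Finset.sum_congr rfl
  intro π _
  rw [h _ (by omega)]

theorem T_smul (m : ℕ) (c : ℤ[X]) (w : ℕ → ℤ[X]) : T m (fun i => c * w i) = c * T m w := by
  unfold T
  rw [Finset.mul_sum]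
  apply Finset.sum_congr rfl
  intro π _
  ring

/-- the polynomial of permutations of `m + 2` letters with first letter `j` -/
noncomputable def U (m j : ℕ) : ℤ[X] := T m (step j)

theorem T_succ' (m : ℕ) (w : ℕ → ℤ[X]) : T (m + 1) w = ∑ j ∈ range (m + 2), w j * U m j :=
  T_succ m w

theorem Ts_succ' (m : ℕ) (w : ℕ → ℤ[X]) :
    Ts (m + 1) w = ∑ j ∈ range (m + 2), (-1) ^ j * w j * Ts m (step j) :=
  Ts_succ m w

theorem U_zero_right (m : ℕ) : U m 0 = T m (fun _ => 1) := by
  unfold U
  apply T_congr
  intro i _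
  simp [step]

theorem U_last (m : ℕ) : U m (m + 1) = X * U m 0 := by
  rw [U_zero_right, ← T_smul]
  unfold U
  apply T_congr
  intro i hi
  simp [step]
  omega

theorem tel (f : ℕ → ℤ[X]) (l M : ℕ) (h : l ≤ M) :
    ∑ i ∈ range M, step l i * (f i - f (i + 1)) = X * (f 0 - f l) + (f l - f M) := by
  induction M, h using Nat.le_induction with
  | base =>
    have : ∀ i ∈ range l, step l i * (f i - f (i + 1)) = X * (f i - f (i + 1)) := by
      intro i hi
      rw [Finset.mem_range] at hi
      simp [step, hi]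
    rw [Finset.sum_congr rfl this, ← Finset.mul_sum, Finset.sum_range_sub']
    ring
  | succ M hM ih =>
    rw [Finset.sum_range_succ, ih]
    have : step l M = 1 := by simp [step]; omega
    rw [this]
    ring

theorem tel2 (f : ℕ → ℤ[X]) (l M : ℕ) (h : l < M) :
    ∑ i ∈ range M, (step (l + 1) i * f i - step l i * f (i + 1)) = X * f 0 - f M := by
  have h1 : ∀ i ∈ range M, (step (l + 1) i * f i - step l i * f (i + 1)) =
      step l i * (f i - f (i + 1)) + (if i = l then (X - 1) * f l else 0) := by
    intro i _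
    unfold step
    rcases lt_trichotomy i l with hi | hi | hi
    · rw [if_pos (by omega), if_pos hi, if_neg (by omega)]; ring
    · subst hi
      rw [if_pos (by omega), if_neg (by omega), if_pos rfl]; ring
    · rw [if_neg (by omega), if_neg (by omega), if_neg (by omega)]; ring
  rw [Finset.sum_congr rfl h1, Finset.sum_add_distrib, tel f l M h.le, Finset.sum_ite_eq' (range M) l]
  rw [if_pos (Finset.mem_range.mpr h)]
  ring

/-- splitting a range of even length into even and odd indices -/
theorem sum_range_two_mul (g : ℕ → ℤ[X]) (m : ℕ) :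
    ∑ j ∈ range (2 * m), g j = ∑ l ∈ range m, (g (2 * l) + g (2 * l + 1)) := by
  induction m with
  | zero => simp
  | succ m ih =>
    rw [Finset.sum_range_succ, ← ih, show 2 * (m + 1) = 2 * m + 1 + 1 by ring,
      Finset.sum_range_succ, Finset.sum_range_succ]
    ring

theorem step_even_even (l i : ℕ) : step (2 * l) (2 * i) = step l i := by
  unfold step
  by_cases h : i < l
  · rw [if_pos h, if_pos (by omega)]
  · rw [if_neg h, if_neg (by omega)]

theorem step_even_odd (l i : ℕ) : step (2 * l) (2 * i + 1) = step l i := by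
  unfold step
  by_cases h : i < l
  · rw [if_pos h, if_pos (by omega)]
  · rw [if_neg h, if_neg (by omega)]

theorem step_odd_even (l i : ℕ) : step (2 * l + 1) (2 * i) = step (l + 1) i := by
  unfold step
  by_cases h : i < l + 1
  · rw [if_pos h, if_pos (by omega)]
  · rw [if_neg h, if_neg (by omega)]

theorem step_odd_odd (l i : ℕ) : step (2 * l + 1) (2 * i + 1) = step l i := by
  unfold step
  by_cases h : i < l
  · rw [if_pos h, if_pos (by omega)]
  · rw [if_neg h, if_neg (by omega)]

/-- odd to even size, given the closed form at odd size -/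
theorem Ts_odd_of (m : ℕ)
    (h : ∀ w, Ts (2 * m) w = (1 - X) ^ m * T m (fun l => w (2 * l))) (w : ℕ → ℤ[X]) :
    Ts (2 * m + 1) w =
      (1 - X) ^ m * ∑ l ∈ range (m + 1), (w (2 * l) * U m l - w (2 * l + 1) * U m (l + 1)) := by
  rw [Ts_succ', show 2 * m + 2 = 2 * (m + 1) by ring, sum_range_two_mul, Finset.mul_sum]
  apply Finset.sum_congr rfl
  intro l _
  rw [h, h]
  have h1 : T m (fun i => step (2 * l) (2 * i)) = U m l := by
    unfold U; apply T_congr; intro i _; exact step_even_even l i
  have h2 : T m (fun i => step (2 * l + 1) (2 * i)) = U m (l + 1) := by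
    unfold U; apply T_congr; intro i _; exact step_odd_even l i
  rw [h1, h2, pow_succ, pow_mul]
  simp
  ring

/-- even to odd size -/
theorem Ts_even_of (m : ℕ)
    (h : ∀ w, Ts (2 * m + 1) w =
      (1 - X) ^ m * ∑ l ∈ range (m + 1), (w (2 * l) * U m l - w (2 * l + 1) * U m (l + 1)))
    (w : ℕ → ℤ[X]) :
    Ts (2 * (m + 1)) w = (1 - X) ^ (m + 1) * T (m + 1) (fun l => w (2 * l)) := by
  rw [show 2 * (m + 1) = 2 * m + 1 + 1 by ring, Ts_succ',
    show 2 * m + 1 + 2 = 2 * (m + 1) + 1 by ring, Finset.sum_range_succ, sum_range_two_mul]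
  have heven : ∀ l ≤ m + 1, Ts (2 * m + 1) (step (2 * l)) = (1 - X) ^ (m + 1) * U m l := by
    intro l hl
    rw [h]
    have h1 : ∀ i ∈ range (m + 1),
        step (2 * l) (2 * i) * U m i - step (2 * l) (2 * i + 1) * U m (i + 1) =
        step l i * (U m i - U m (i + 1)) := by
      intro i _
      rw [step_even_even, step_even_odd]; ring
    rw [Finset.sum_congr rfl h1, tel _ l (m + 1) hl, U_last]
    ring
  have hodd : ∀ l ≤ m, Ts (2 * m + 1) (step (2 * l + 1)) = 0 := by
    intro l hl
    rw [h]
    have h1 : ∀ i ∈ range (m + 1),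
        step (2 * l + 1) (2 * i) * U m i - step (2 * l + 1) (2 * i + 1) * U m (i + 1) =
        step (l + 1) i * U m i - step l i * U m (i + 1) := by
      intro i _
      rw [step_odd_even, step_odd_odd]
    rw [Finset.sum_congr rfl h1, tel2 _ l (m + 1) (by omega), U_last]
    ring
  rw [T_succ', Finset.sum_range_succ (fun j => w (2 * j) * U m j),
    mul_add ((1 - X : ℤ[X]) ^ (m + 1)), Finset.mul_sum]
  congr 1
  · apply Finset.sum_congr rfl
    intro l hl
    rw [Finset.mem_range] at hl
    rw [heven l (by omega), hodd l (by omega), pow_mul]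
    simp
    ring
  · rw [heven (m + 1) le_rfl, pow_mul]
    simp
    ring

theorem Ts_even (m : ℕ) : ∀ w, Ts (2 * m) w = (1 - X) ^ m * T m (fun l => w (2 * l)) := by
  induction m with
  | zero => intro w; simp [Ts_zero, T_zero]
  | succ m ih => exact Ts_even_of m (Ts_odd_of m ih)

theorem Ts_odd (m : ℕ) (w : ℕ → ℤ[X]) :
    Ts (2 * m + 1) w =
      (1 - X) ^ m * ∑ l ∈ range (m + 1), (w (2 * l) * U m l - w (2 * l + 1) * U m (l + 1)) :=
  Ts_odd_of m (Ts_even m) w

/-- Eulerian polynomial for `m + 1` letters -/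
noncomputable def A (m : ℕ) : ℤ[X] := T m (fun _ => 1)

/-- signed Eulerian polynomial for `m + 1` letters -/
noncomputable def D (m : ℕ) : ℤ[X] := Ts m (fun _ => 1)

theorem D_even (m : ℕ) : D (2 * m) = (1 - X) ^ m * A m := Ts_even m _

theorem D_odd (m : ℕ) : D (2 * m + 1) = (1 - X) ^ (m + 1) * A m := by
  unfold D
  rw [Ts_odd]
  have h1 : ∀ l ∈ range (m + 1), ((1 : ℤ[X]) * U m l - 1 * U m (l + 1)) = U m l - U m (l + 1) := by
    intro l _; ring
  rw [Finset.sum_congr rfl h1, Finset.sum_range_sub', U_last, U_zero_right]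
  unfold A
  ring

theorem U_rec (m : ℕ) : ∀ j ≤ m + 1, U (m + 1) j =
    (1 + ((m + 1 : ℕ) : ℤ[X]) * X) * U m j + X * (1 - X) * derivative (U m j) := by
  induction m with
  | zero =>
    intro j hj
    have e0 : ∀ j, U 0 j = step j 0 := by intro j; unfold U; rw [T_zero]
    have : U (0 + 1) j = ∑ i ∈ range 2, step j i * U 0 i := T_succ' 0 (step j)
    rw [this]
    simp only [Finset.sum_range_succ, Finset.sum_range_zero, e0]
    have hj' : j = 0 ∨ j = 1 := by omega
    rcases hj' with rfl | rfl
    · simp [step]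
    · simp [step]; ring
  | succ m ih =>
    intro j hj
    have e1 : U (m + 1 + 1) j = ∑ i ∈ range (m + 1 + 2), step j i * U (m + 1) i :=
      T_succ' (m + 1) (step j)
    have e2 : U (m + 1) j = ∑ i ∈ range (m + 2), step j i * U m i := T_succ' m (step j)
    have e3 : U (m + 1) 0 = ∑ i ∈ range (m + 2), U m i := by
      have : U (m + 1) 0 = ∑ i ∈ range (m + 2), step 0 i * U m i := T_succ' m (step 0)
      rw [this]
      apply Finset.sum_congr rfl
      intro i _
      simp [step]
    have e4 : step j (m + 2) = 1 := by simp [step]; omega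
    have e5 : U (m + 1) (m + 2) = X * U (m + 1) 0 := U_last (m + 1)
    rw [e1, show m + 1 + 2 = (m + 2) + 1 by ring, Finset.sum_range_succ, e4, e5, e3, e2,
      derivative_sum, one_mul, Finset.mul_sum, Finset.mul_sum, Finset.mul_sum,
      ← Finset.sum_add_distrib, ← Finset.sum_add_distrib]
    apply Finset.sum_congr rfl
    intro i hi
    rw [Finset.mem_range] at hi
    rw [ih i (by omega), derivative_mul]
    unfold step
    by_cases h : i < j
    · rw [if_pos h]; simp; ring
    · rw [if_neg h]; simp; ring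

theorem A_zero : A 0 = 1 := by unfold A; rw [T_zero]

theorem A_succ (m : ℕ) : A (m + 1) =
    (1 + ((m + 1 : ℕ) : ℤ[X]) * X) * A m + X * (1 - X) * derivative (A m) := by
  cases m with
  | zero =>
    rw [A_zero]
    unfold A
    rw [T_succ']
    have e0 : ∀ j, U 0 j = step j 0 := by intro j; unfold U; rw [T_zero]
    simp only [Finset.sum_range_succ, Finset.sum_range_zero, e0]
    simp [step]
  | succ m =>
    have h1 : A (m + 1) = ∑ j ∈ range (m + 2), U m j := by
      unfold A; rw [T_succ']; simp
    have h2 : A (m + 1 + 1) = ∑ j ∈ range (m + 1 + 2), U (m + 1) j := by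
      unfold A; rw [T_succ']; simp
    have e3 : U (m + 1) 0 = ∑ i ∈ range (m + 2), U m i := by
      have : U (m + 1) 0 = ∑ i ∈ range (m + 2), step 0 i * U m i := T_succ' m (step 0)
      rw [this]
      apply Finset.sum_congr rfl
      intro i _
      simp [step]
    have e5 : U (m + 1) (m + 2) = X * U (m + 1) 0 := U_last (m + 1)
    rw [h2, show m + 1 + 2 = (m + 2) + 1 by ring, Finset.sum_range_succ, e5, e3, h1,
      derivative_sum, Finset.mul_sum, Finset.mul_sum, Finset.mul_sum,
      ← Finset.sum_add_distrib, ← Finset.sum_add_distrib]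
    apply Finset.sum_congr rfl
    intro i hi
    rw [Finset.mem_range] at hi
    rw [U_rec m i (by omega)]
    push_cast
    ring

theorem D_even_succ (m : ℕ) : D (2 * m + 2) =
    (1 + ((2 * m + 2 : ℕ) : ℤ[X]) * X) * D (2 * m + 1) + X * (1 - X) * derivative (D (2 * m + 1)) := by
  rw [show 2 * m + 2 = 2 * (m + 1) by ring, D_even, D_odd, A_succ, derivative_mul, derivative_pow]
  simp only [derivative_sub, derivative_one, derivative_X, map_natCast, Nat.add_sub_cancel]
  push_cast
  ring

theorem D_odd_succ (m : ℕ) : D (2 * m + 1) = (1 - X) * D (2 * m) := by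
  rw [D_odd, D_even]; ring

end Pool.Agent.SynDes
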