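import Mathlib
import Pool.Agent.MP_ab4491_co.Closed

set_option autoImplicit false

namespace Pool.Agent.SynDes

open Finset Polynomial

/-- coefficients of the Eulerian polynomial of `m + 1` letters -/
noncomputable def a (m k : ℕ) : ℤ := (A m).coeff k

/-- coefficients of the signed Eulerian polynomial of `m + 1` letters -/
noncomputable def d (m k : ℕ) : ℤ := (D m).coeff k

theorem coeff_E_succ (c : ℕ) (f : ℤ[X]) (k : ℕ) :
    ((1 + (c : ℤ[X]) * X) * f + X * (1 - X) * derivative f).coeff (k + 1) =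
      (k + 2) * f.coeff (k + 1) + (c - k) * f.coeff k := by
  have h : (1 + (c : ℤ[X]) * X) * f + X * (1 - X) * derivative f =
      f + (c : ℤ[X]) * (X * f) + X * derivative f - X * (X * derivative f) := by ring
  rw [h, coeff_sub, coeff_add, coeff_add, coeff_natCast_mul, coeff_X_mul, coeff_X_mul,
    coeff_X_mul, coeff_derivative]
  have h2 : (X * derivative f).coeff k = k * f.coeff k := by
    cases k with
    | zero => simp
    | succ k => rw [coeff_X_mul, coeff_derivative]; push_cast; ring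
  rw [h2]
  ring

theorem coeff_E_zero (c : ℕ) (f : ℤ[X]) :
    ((1 + (c : ℤ[X]) * X) * f + X * (1 - X) * derivative f).coeff 0 = f.coeff 0 := by
  simp [mul_coeff_zero, coeff_add]

theorem a_succ_zero (m : ℕ) : a (m + 1) 0 = a m 0 := by
  unfold a; rw [A_succ, coeff_E_zero]

theorem a_succ_succ (m k : ℕ) :
    a (m + 1) (k + 1) = (k + 2) * a m (k + 1) + (m + 1 - k) * a m k := by
  unfold a; rw [A_succ, coeff_E_succ]; push_cast; ring

theorem a_zero_zero : a 0 0 = 1 := by unfold a; rw [A_zero]; simp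

theorem a_zero_succ (k : ℕ) : a 0 (k + 1) = 0 := by
  unfold a; rw [A_zero, coeff_one]; simp

theorem d_even_zero (m : ℕ) : d (2 * m + 2) 0 = d (2 * m + 1) 0 := by
  unfold d; rw [D_even_succ, coeff_E_zero]

theorem d_even_succ (m k : ℕ) :
    d (2 * m + 2) (k + 1) =
      (k + 2) * d (2 * m + 1) (k + 1) + (2 * m + 2 - k) * d (2 * m + 1) k := by
  unfold d; rw [D_even_succ, coeff_E_succ]; push_cast; ring

theorem d_odd_zero (m : ℕ) : d (2 * m + 1) 0 = d (2 * m) 0 := by
  unfold d; rw [D_odd_succ]; simp [mul_coeff_zero]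

theorem d_odd_succ (m k : ℕ) : d (2 * m + 1) (k + 1) = d (2 * m) (k + 1) - d (2 * m) k := by
  unfold d; rw [D_odd_succ, sub_mul, one_mul, coeff_sub, coeff_X_mul]

theorem D_zero : D 0 = 1 := by unfold D; rw [Ts_zero]

theorem d_zero_zero : d 0 0 = 1 := by unfold d; rw [D_zero]; simp

theorem d_zero_succ (k : ℕ) : d 0 (k + 1) = 0 := by
  unfold d; rw [D_zero, coeff_one]; simp

theorem a_eq_zero (m : ℕ) : ∀ k, m < k → a m k = 0 := by
  induction m with
  | zero =>
    intro k hk
    obtain ⟨j, rfl⟩ : ∃ j, k = j + 1 := ⟨k - 1, by omega⟩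
    exact a_zero_succ j
  | succ m ih =>
    intro k hk
    obtain ⟨j, rfl⟩ : ∃ j, k = j + 1 := ⟨k - 1, by omega⟩
    rw [a_succ_succ, ih (j + 1) (by omega), ih j (by omega)]
    ring

theorem a_pos (m : ℕ) : ∀ k ≤ m, 0 < a m k := by
  induction m with
  | zero =>
    intro k hk
    obtain rfl : k = 0 := by omega
    rw [a_zero_zero]; norm_num
  | succ m ih =>
    intro k hk
    cases k with
    | zero => rw [a_succ_zero]; exact ih 0 (by omega)
    | succ k =>
      rw [a_succ_succ]
      have h1 : 0 < a m k := ih k (by omega)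
      have h2 : 0 ≤ a m (k + 1) := by
        by_cases h : k + 1 ≤ m
        · exact (ih _ h).le
        · rw [a_eq_zero m _ (by omega)]
      have h3 : (0 : ℤ) < (m : ℤ) + 1 - k := by
        have : (k : ℤ) ≤ m := by exact_mod_cast (by omega : k ≤ m)
        linarith
      have h4 : (0 : ℤ) ≤ (k : ℤ) + 2 := by positivity
      have h5 := mul_pos h3 h1
      have h6 := mul_nonneg h4 h2
      linarith

theorem a_nonneg (m k : ℕ) : 0 ≤ a m k := by
  by_cases h : k ≤ m
  · exact (a_pos m k h).le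
  · rw [a_eq_zero m _ (by omega)]

theorem a_zero_right (m : ℕ) : a m 0 = 1 := by
  induction m with
  | zero => exact a_zero_zero
  | succ m ih => rw [a_succ_zero, ih]

/-- generic symmetry step for the Eulerian recursion -/
theorem symm_step (f g : ℕ → ℤ) (m : ℕ) (s : ℤ)
    (hf : ∀ i j, i + j = m → f i = s * f j)
    (hf0 : ∀ k, m < k → f k = 0)
    (hg0 : g 0 = f 0)
    (hg : ∀ k : ℕ, g (k + 1) = (k + 2) * f (k + 1) + (m + 1 - k) * f k) :
    ∀ i j, i + j = m + 1 → g i = s * g j := by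
  have key : ∀ i j, i + j = m → g (i + 1) = (i + 2) * f (i + 1) + (j + 1) * f i := by
    intro i j hij
    rw [hg]
    have : (m : ℤ) = i + j := by exact_mod_cast hij.symm
    rw [this]; ring
  intro i j hij
  cases i with
  | zero =>
    obtain rfl : j = m + 1 := by omega
    rw [hg0, key m 0 (by omega), hf0 (m + 1) (by omega), hf 0 m (by omega)]
    push_cast; ring
  | succ i =>
    cases j with
    | zero =>
      obtain rfl : i = m := by omega
      rw [hg0, key i 0 (by omega), hf0 (i + 1) (by omega), hf i 0 (by omega)]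
      push_cast; ring
    | succ j =>
      have h1 := key i (j + 1) (by omega)
      have h2 := key j (i + 1) (by omega)
      rw [h1, h2, hf (i + 1) j (by omega), hf i (j + 1) (by omega)]
      push_cast; ring

theorem a_symm (m : ℕ) : ∀ i j, i + j = m → a m i = a m j := by
  induction m with
  | zero =>
    intro i j hij
    obtain rfl : i = 0 := by omega
    obtain rfl : j = 0 := by omega
    rfl
  | succ m ih =>
    have := symm_step (a m) (a (m + 1)) m 1 (fun i j h => by rw [ih i j h]; ring)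
      (a_eq_zero m) (a_succ_zero m) (a_succ_succ m)
    intro i j hij
    rw [this i j hij]; ring

theorem d_symm_aux (m : ℕ) :
    ((∀ k, 2 * m < k → d (2 * m) k = 0) ∧
      ∃ s : ℤ, (s = 1 ∨ s = -1) ∧ ∀ i j, i + j = 2 * m → d (2 * m) i = s * d (2 * m) j) ∧
    ((∀ k, 2 * m + 1 < k → d (2 * m + 1) k = 0) ∧
      ∃ s : ℤ, (s = 1 ∨ s = -1) ∧
        ∀ i j, i + j = 2 * m + 1 → d (2 * m + 1) i = s * d (2 * m + 1) j) := by
  have step1 : ∀ m : ℕ, ((∀ k, 2 * m < k → d (2 * m) k = 0) ∧
      ∃ s : ℤ, (s = 1 ∨ s = -1) ∧ ∀ i j, i + j = 2 * m → d (2 * m) i = s * d (2 * m) j) →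
      ((∀ k, 2 * m + 1 < k → d (2 * m + 1) k = 0) ∧
      ∃ s : ℤ, (s = 1 ∨ s = -1) ∧
        ∀ i j, i + j = 2 * m + 1 → d (2 * m + 1) i = s * d (2 * m + 1) j) := by
    rintro m ⟨h0, s, hs, h⟩
    refine ⟨?_, -s, by rcases hs with rfl | rfl <;> simp, ?_⟩
    · intro k hk
      obtain ⟨j, rfl⟩ : ∃ j, k = j + 1 := ⟨k - 1, by omega⟩
      rw [d_odd_succ, h0 (j + 1) (by omega), h0 j (by omega)]; ring
    · intro i j hij
      cases i with
      | zero =>
        obtain rfl : j = 2 * m + 1 := by omega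
        rw [d_odd_zero, d_odd_succ, h0 (2 * m + 1) (by omega), h 0 (2 * m) (by omega)]
        ring
      | succ i =>
        cases j with
        | zero =>
          obtain rfl : i = 2 * m := by omega
          rw [d_odd_zero, d_odd_succ, h0 (2 * m + 1) (by omega), h (2 * m) 0 (by omega)]
          ring
        | succ j =>
          rw [d_odd_succ, d_odd_succ, h (i + 1) j (by omega), h i (j + 1) (by omega)]
          ring
  induction m with
  | zero =>
    have h0 : ((∀ k, 2 * 0 < k → d (2 * 0) k = 0) ∧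
      ∃ s : ℤ, (s = 1 ∨ s = -1) ∧ ∀ i j, i + j = 2 * 0 → d (2 * 0) i = s * d (2 * 0) j) := by
      refine ⟨?_, 1, Or.inl rfl, ?_⟩
      · intro k hk
        obtain ⟨j, rfl⟩ : ∃ j, k = j + 1 := ⟨k - 1, by omega⟩
        exact d_zero_succ j
      · intro i j hij
        obtain rfl : i = 0 := by omega
        obtain rfl : j = 0 := by omega
        ring
    exact ⟨h0, step1 0 h0⟩
  | succ m ih =>
    obtain ⟨_, h0, s, hs, h⟩ := ih
    have h1 : ((∀ k, 2 * (m + 1) < k → d (2 * (m + 1)) k = 0) ∧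
      ∃ s : ℤ, (s = 1 ∨ s = -1) ∧
        ∀ i j, i + j = 2 * (m + 1) → d (2 * (m + 1)) i = s * d (2 * (m + 1)) j) := by
      refine ⟨?_, s, hs, ?_⟩
      · intro k hk
        obtain ⟨j, rfl⟩ : ∃ j, k = j + 1 := ⟨k - 1, by omega⟩
        rw [show 2 * (m + 1) = 2 * m + 2 by ring, d_even_succ, h0 (j + 1) (by omega),
          h0 j (by omega)]; ring
      · exact symm_step (d (2 * m + 1)) (d (2 * m + 2)) (2 * m + 1) s h h0 (d_even_zero m)
          (fun k => by rw [d_even_succ]; push_cast; ring)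
    exact ⟨h1, step1 (m + 1) h1⟩

theorem d_symm (m : ℕ) : ∀ i j, i + j = m → |d m i| = |d m j| := by
  intro i j hij
  have key : ∃ s : ℤ, (s = 1 ∨ s = -1) ∧ ∀ i j, i + j = m → d m i = s * d m j := by
    obtain ⟨r, hr | hr⟩ : ∃ r, m = 2 * r ∨ m = 2 * r + 1 := ⟨m / 2, by omega⟩
    · rw [hr]; exact (d_symm_aux r).1.2
    · rw [hr]; exact (d_symm_aux r).2.2
  obtain ⟨s, hs, h⟩ := key
  rw [h i j hij, abs_mul]
  rcases hs with rfl | rfl <;> simp

theorem d_zero_right (m : ℕ) : d m 0 = 1 := by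
  have key : ∀ r, d (2 * r) 0 = 1 ∧ d (2 * r + 1) 0 = 1 := by
    intro r
    induction r with
    | zero => exact ⟨d_zero_zero, by rw [d_odd_zero]; exact d_zero_zero⟩
    | succ r ih =>
      have h1 : d (2 * (r + 1)) 0 = 1 := by
        rw [show 2 * (r + 1) = 2 * r + 2 by ring, d_even_zero]; exact ih.2
      exact ⟨h1, by rw [d_odd_zero]; exact h1⟩
  obtain ⟨r, hr | hr⟩ : ∃ r, m = 2 * r ∨ m = 2 * r + 1 := ⟨m / 2, by omega⟩
  · rw [hr]; exact (key r).1
  · rw [hr]; exact (key r).2

/-- the facts on first coefficients -/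
theorem first_coeff (m : ℕ) :
    0 ≤ d (2 * (m + 1)) 1 ∧ 2 * (m : ℤ) ≤ d (2 * (m + 1)) 1 ∧
      (2 * (m : ℤ) + 3) * d (2 * (m + 1)) 1 ≤ a (2 * (m + 1)) 1 := by
  have ha1 : a 1 1 = 1 := by
    have := a_succ_succ 0 0
    rw [a_zero_succ 0, a_zero_zero] at this
    simpa using this
  have ha2 : a 2 1 = 4 := by
    have := a_succ_succ 1 0
    rw [ha1, a_zero_right] at this
    norm_num at this
    exact this
  have hd1 : d 1 1 = -1 := by
    have := d_odd_succ 0 0
    rw [d_zero_succ 0, d_zero_zero] at this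
    simpa using this
  have hd2 : d 2 1 = 0 := by
    have := d_even_succ 0 0
    rw [show 2 * 0 + 1 = 1 by rfl, hd1, d_zero_right] at this
    norm_num at this
    exact this
  induction m with
  | zero =>
    simp only [zero_add, mul_one]
    rw [hd2, ha2]; norm_num
  | succ m ih =>
    obtain ⟨h1, h2, h3⟩ := ih
    have e1 : d (2 * (m + 1) + 1) 1 = d (2 * (m + 1)) 1 - 1 := by
      have := d_odd_succ (m + 1) 0
      rw [d_zero_right] at this
      exact this
    have e2 : d (2 * (m + 1 + 1)) 1 = 2 * d (2 * (m + 1)) 1 + 2 * (m + 1) := by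
      have := d_even_succ (m + 1) 0
      rw [d_zero_right] at this
      rw [show 2 * (m + 1 + 1) = 2 * (m + 1) + 2 by ring]
      rw [show (0 : ℕ) + 1 = 1 by rfl] at this
      rw [this, e1]
      push_cast; ring
    have e3 : a (2 * (m + 1) + 1) 1 = 2 * a (2 * (m + 1)) 1 + (2 * (m + 1) + 1) := by
      have := a_succ_succ (2 * (m + 1)) 0
      rw [a_zero_right] at this
      rw [show (0 : ℕ) + 1 = 1 by rfl] at this
      rw [this]; push_cast; ring
    have e4 : a (2 * (m + 1 + 1)) 1 = 4 * a (2 * (m + 1)) 1 + 6 * (m + 1) + 4 := by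
      have := a_succ_succ (2 * (m + 1) + 1) 0
      rw [a_zero_right] at this
      rw [show (0 : ℕ) + 1 = 1 by rfl, e3] at this
      rw [show 2 * (m + 1 + 1) = 2 * (m + 1) + 1 + 1 by ring, this]
      push_cast; ring
    have hm : (0 : ℤ) ≤ m := by positivity
    refine ⟨?_, ?_, ?_⟩
    · rw [e2]; linarith
    · rw [e2]; push_cast; linarith
    · rw [e2, e4]
      have hmm : 0 ≤ (m : ℤ) * (m - 1) := by
        rcases Nat.eq_zero_or_pos m with h | h
        · subst h; simp
        · have : (1 : ℤ) ≤ m := by exact_mod_cast h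
          exact mul_nonneg hm (by linarith)
      have h4 := mul_le_mul_of_nonneg_left h2 hm
      push_cast
      nlinarith [h4, h3, h2, hmm]

end Pool.Agent.SynDes
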