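import Mathlib
import Pool.Agent.MP_ab4491_co.Coeffs

set_option autoImplicit false

namespace Pool.Agent.SynDes

open Finset Polynomial

def BE (m : ℕ) : Prop :=
  ∀ k : ℕ, 1 ≤ k → k ≤ 2 * m + 1 → (2 * (m : ℤ) + 3) * |d (2 * (m + 1)) k| ≤ a (2 * (m + 1)) k

def BO (m : ℕ) : Prop :=
  ∀ k : ℕ, 1 ≤ k → k ≤ 2 * m + 2 →
    (4 * (m : ℤ) + 6) * |d (2 * (m + 1) + 1) k| ≤ a (2 * (m + 1) + 1) k

theorem BO_of_BE (m : ℕ) (h : BE m) : BO m := by
  have hfirst : (4 * (m : ℤ) + 6) * |d (2 * (m + 1) + 1) 1| ≤ a (2 * (m + 1) + 1) 1 := by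
    obtain ⟨h1, h2, h3⟩ := first_coeff m
    have e1 : d (2 * (m + 1) + 1) 1 = d (2 * (m + 1)) 1 - 1 := by
      have := d_odd_succ (m + 1) 0
      rw [d_zero_right] at this
      exact this
    have e3 : a (2 * (m + 1) + 1) 1 = 2 * a (2 * (m + 1)) 1 + (2 * (m + 1) + 1) := by
      have := a_succ_succ (2 * (m + 1)) 0
      rw [a_zero_right] at this
      rw [show (0 : ℕ) + 1 = 1 by rfl] at this
      rw [this]; push_cast; ring
    rw [e1, e3]
    rcases Nat.eq_zero_or_pos m with hm | hm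
    · subst hm
      -- here `d 2 1 = 0`, `a 2 1 = 4`
      have ha1 : a 1 1 = 1 := by
        have := a_succ_succ 0 0
        rw [a_zero_succ 0, a_zero_zero] at this
        simpa using this
      have ha2 : a 2 1 = 4 := by
        have := a_succ_succ 1 0
        rw [ha1, a_zero_right] at this
        norm_num at this
        exact this
      have hd2 : d 2 1 = 0 := by
        have hd1 : d 1 1 = -1 := by
          have := d_odd_succ 0 0
          rw [d_zero_succ 0, d_zero_zero] at this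
          simpa using this
        have := d_even_succ 0 0
        rw [show 2 * 0 + 1 = 1 by rfl, hd1, d_zero_right] at this
        norm_num at this
        exact this
      rw [show 2 * (0 + 1) = 2 by rfl, ha2, hd2]
      norm_num
    · have hm' : (1 : ℤ) ≤ m := by exact_mod_cast hm
      rw [abs_of_nonneg (by linarith)]
      nlinarith
  intro k hk1 hk2
  by_cases hk : k = 1
  · subst hk; exact hfirst
  by_cases hk' : k = 2 * m + 2
  · have h1 : |d (2 * (m + 1) + 1) k| = |d (2 * (m + 1) + 1) 1| := d_symm _ _ _ (by omega)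
    have h2 : a (2 * (m + 1) + 1) k = a (2 * (m + 1) + 1) 1 := a_symm _ _ _ (by omega)
    rw [h1, h2]; exact hfirst
  · obtain ⟨j, rfl⟩ : ∃ j, k = j + 1 := ⟨k - 1, by omega⟩
    rw [d_odd_succ, a_succ_succ]
    have h1 := h (j + 1) (by omega) (by omega)
    have h2 := h j (by omega) (by omega)
    have h3 := abs_sub (d (2 * (m + 1)) (j + 1)) (d (2 * (m + 1)) j)
    have h4 := a_nonneg (2 * (m + 1)) (j + 1)
    have h5 := a_nonneg (2 * (m + 1)) j
    have h6 : (2 : ℤ) ≤ ((2 * (m + 1) : ℕ) : ℤ) + 1 - j := by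
      have : (j : ℤ) + 1 ≤ 2 * m + 1 := by exact_mod_cast (by omega : j + 1 ≤ 2 * m + 1)
      push_cast
      linarith
    have h7 : (2 : ℤ) ≤ (j : ℤ) + 2 := by
      have : (0 : ℤ) ≤ j := by positivity
      linarith
    have h8 := mul_le_mul_of_nonneg_right h6 h5
    have h9 := mul_le_mul_of_nonneg_right h7 h4
    have h10 : (4 * (m : ℤ) + 6) * |d (2 * (m + 1)) (j + 1) - d (2 * (m + 1)) j| ≤
        (4 * (m : ℤ) + 6) * (|d (2 * (m + 1)) (j + 1)| + |d (2 * (m + 1)) j|) := by
      apply mul_le_mul_of_nonneg_left h3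
      positivity
    nlinarith

theorem BE_succ_of_BO (m : ℕ) (h : BO m) : BE (m + 1) := by
  have hfirst : (2 * ((m + 1 : ℕ) : ℤ) + 3) * |d (2 * (m + 1 + 1)) 1| ≤ a (2 * (m + 1 + 1)) 1 := by
    obtain ⟨h1, _, h3⟩ := first_coeff (m + 1)
    rw [abs_of_nonneg h1]
    exact h3
  intro k hk1 hk2
  by_cases hk : k = 1
  · subst hk; exact hfirst
  by_cases hk' : k = 2 * (m + 1) + 1
  · have h1 : |d (2 * (m + 1 + 1)) k| = |d (2 * (m + 1 + 1)) 1| := d_symm _ _ _ (by omega)
    have h2 : a (2 * (m + 1 + 1)) k = a (2 * (m + 1 + 1)) 1 := a_symm _ _ _ (by omega)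
    rw [h1, h2]; exact hfirst
  · obtain ⟨j, rfl⟩ : ∃ j, k = j + 1 := ⟨k - 1, by omega⟩
    have e1 : d (2 * (m + 1 + 1)) (j + 1) =
        (j + 2) * d (2 * (m + 1) + 1) (j + 1) + (2 * ((m + 1 : ℕ) : ℤ) + 2 - j) *
          d (2 * (m + 1) + 1) j := d_even_succ (m + 1) j
    have e2 : a (2 * (m + 1 + 1)) (j + 1) =
        (j + 2) * a (2 * (m + 1) + 1) (j + 1) +
          (((2 * (m + 1) + 1 : ℕ) : ℤ) + 1 - j) * a (2 * (m + 1) + 1) j :=
      a_succ_succ (2 * (m + 1) + 1) j
    have h1 := h (j + 1) (by omega) (by omega)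
    have h2 := h j (by omega) (by omega)
    have hj : (j : ℤ) + 1 ≤ 2 * m + 2 := by exact_mod_cast (by omega : j + 1 ≤ 2 * m + 2)
    have hj0 : (0 : ℤ) ≤ j := by positivity
    have hm0 : (0 : ℤ) ≤ m := by positivity
    have h3 : |d (2 * (m + 1 + 1)) (j + 1)| ≤
        (j + 2) * |d (2 * (m + 1) + 1) (j + 1)| + (2 * ((m + 1 : ℕ) : ℤ) + 2 - j) *
          |d (2 * (m + 1) + 1) j| := by
      rw [e1]
      refine (abs_add_le _ _).trans ?_
      rw [abs_mul, abs_mul, abs_of_nonneg (by linarith : (0 : ℤ) ≤ (j : ℤ) + 2),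
        abs_of_nonneg (by push_cast; linarith : (0 : ℤ) ≤ 2 * ((m + 1 : ℕ) : ℤ) + 2 - j)]
    rw [e2]
    push_cast at *
    have h4 := mul_le_mul_of_nonneg_left h1 (by linarith : (0 : ℤ) ≤ (j : ℤ) + 2)
    have h5 := mul_le_mul_of_nonneg_left h2 (by linarith : (0 : ℤ) ≤ 2 * ((m : ℤ) + 1) + 2 - j)
    have h6 : (2 * ((m : ℤ) + 1) + 3) * |d (2 * (m + 1 + 1)) (j + 1)| ≤
        (4 * (m : ℤ) + 6) * |d (2 * (m + 1 + 1)) (j + 1)| := by
      apply mul_le_mul_of_nonneg_right _ (abs_nonneg _)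
      linarith
    have h7 := mul_le_mul_of_nonneg_left h3 (by linarith : (0 : ℤ) ≤ 4 * (m : ℤ) + 6)
    nlinarith

theorem BE_all (m : ℕ) : BE m := by
  induction m with
  | zero =>
    intro k hk1 hk2
    obtain rfl : k = 1 := by omega
    obtain ⟨h1, _, h3⟩ := first_coeff 0
    rw [abs_of_nonneg h1]
    exact h3
  | succ m ih => exact BE_succ_of_BO m (BO_of_BE m ih)

/-- the uniform bound: `n |d| ≤ a` in the interior, with `n = m + 1` -/
theorem bound (m k : ℕ) (hk1 : 1 ≤ k) (hk2 : k + 1 ≤ m) :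
    ((m : ℤ) + 1) * |d m k| ≤ a m k := by
  obtain ⟨r, hr | hr⟩ : ∃ r, m = 2 * (r + 1) ∨ m = 2 * (r + 1) + 1 := ⟨m / 2 - 1, by omega⟩
  · have := BE_all r k hk1 (by omega)
    rw [← hr] at this
    have e : (m : ℤ) + 1 = 2 * (r : ℤ) + 3 := by rw [hr]; push_cast; ring
    rw [e]; exact this
  · have := BO_of_BE r (BE_all r) k hk1 (by omega)
    rw [← hr] at this
    have e : (m : ℤ) + 1 = 2 * (r : ℤ) + 4 := by rw [hr]; push_cast; ring
    rw [e]
    have hr0 : (0 : ℤ) ≤ r := by positivity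
    have h2 := abs_nonneg (d m k)
    nlinarith

/-- crude log-concavity at the left end -/
theorem first_lc (m : ℕ) : 4 * a (m + 1) 2 ≤ (a (m + 1) 1) ^ 2 := by
  induction m with
  | zero =>
    have h2 : a (0 + 1) 2 = 0 := a_eq_zero _ _ (by omega)
    rw [h2]; nlinarith [sq_nonneg (a (0 + 1) 1)]
  | succ m ih =>
    have h2 : a (m + 1 + 1) 2 = 3 * a (m + 1) 2 + ((m : ℤ) + 1) * a (m + 1) 1 := by
      have := a_succ_succ (m + 1) 1
      rw [show (1 : ℕ) + 1 = 2 by rfl] at this
      rw [this]; push_cast; ring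
    have h1 : a (m + 1 + 1) 1 = 2 * a (m + 1) 1 + ((m : ℤ) + 2) := by
      have := a_succ_succ (m + 1) 0
      rw [show (0 : ℕ) + 1 = 1 by rfl, a_zero_right] at this
      rw [this]; push_cast; ring
    rw [h1, h2]
    have h3 := a_nonneg (m + 1) 1
    have h4 := a_nonneg (m + 1) 2
    have h5 : (0 : ℤ) ≤ m := by positivity
    nlinarith

/-- normalised Eulerian numbers -/
noncomputable def al (m k : ℕ) : ℚ := (a m k : ℚ) / (m.choose k : ℚ)

theorem al_nonneg (m k : ℕ) : 0 ≤ al m k := by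
  unfold al
  apply div_nonneg
  · exact_mod_cast a_nonneg m k
  · positivity

theorem al_eq_zero (m k : ℕ) (h : m < k) : al m k = 0 := by
  unfold al; rw [a_eq_zero m k h]; simp

theorem al_pos (m k : ℕ) (h : k ≤ m) : 0 < al m k := by
  unfold al
  apply div_pos
  · exact_mod_cast a_pos m k h
  · exact_mod_cast Nat.choose_pos h

theorem al_rec (m k : ℕ) :
    ((m : ℚ) + 1) * al (m + 1) (k + 1) =
      (k + 2) * (m - k) * al m (k + 1) + (k + 1) * (m + 1 - k) * al m k := by
  by_cases hk : k ≤ m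
  · have hc0 : (0 : ℚ) < (m.choose k : ℚ) := by exact_mod_cast Nat.choose_pos hk
    have hc : (0 : ℚ) < ((m + 1).choose (k + 1) : ℚ) := by
      exact_mod_cast Nat.choose_pos (by omega)
    have e1 : ((m : ℚ) + 1) * (m.choose k : ℚ) = ((m + 1).choose (k + 1) : ℚ) * (k + 1) := by
      exact_mod_cast Nat.add_one_mul_choose_eq m k
    have e0 : (a (m + 1) (k + 1) : ℚ) = (k + 2) * a m (k + 1) + (m + 1 - k) * a m k := by
      exact_mod_cast a_succ_succ m k
    have f0 : (a m k : ℚ) = al m k * (m.choose k : ℚ) := by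
      unfold al; field_simp
    have f1 : (a m (k + 1) : ℚ) = al m (k + 1) * (m.choose (k + 1) : ℚ) := by
      by_cases h : k + 1 ≤ m
      · have : (0 : ℚ) < (m.choose (k + 1) : ℚ) := by exact_mod_cast Nat.choose_pos h
        unfold al; field_simp
      · rw [al_eq_zero m _ (by omega), a_eq_zero m _ (by omega)]; simp
    have e2 : ((m : ℚ) + 1) * (m.choose (k + 1) : ℚ) =
        ((m + 1).choose (k + 1) : ℚ) * (m - k) := by
      have h1 : (m.choose (k + 1)) * (k + 1) = m.choose k * (m - k) :=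
        Nat.choose_succ_right_eq m k
      have h2 : (m.choose (k + 1) : ℚ) * (k + 1) = m.choose k * (m - k) := by
        have h3 : (((m - k : ℕ)) : ℚ) = (m : ℚ) - k := by push_cast [Nat.cast_sub hk]; ring
        rw [← h3]; exact_mod_cast h1
      have h4 : ((k : ℚ) + 1) ≠ 0 := by positivity
      have h5 : (((m : ℚ) + 1) * (m.choose (k + 1) : ℚ) -
          ((m + 1).choose (k + 1) : ℚ) * (m - k)) * (k + 1) = 0 := by
        have : ((m + 1).choose (k + 1) : ℚ) * (m - k) * (k + 1) =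
            (m + 1) * (m.choose k * (m - k)) := by
          rw [← mul_assoc, e1]; ring
        rw [sub_mul, this, ← h2]; ring
      rcases mul_eq_zero.mp h5 with h6 | h6
      · linarith
      · exact absurd h6 h4
    have g : al (m + 1) (k + 1) = (a (m + 1) (k + 1) : ℚ) / ((m + 1).choose (k + 1) : ℚ) := rfl
    rw [g, e0, f0, f1, mul_div_assoc', div_eq_iff hc.ne']
    have : ((m : ℚ) + 1) * ((k + 2) * (al m (k + 1) * (m.choose (k + 1) : ℚ)) +
        (m + 1 - k) * (al m k * (m.choose k : ℚ))) =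
        (k + 2) * al m (k + 1) * (((m : ℚ) + 1) * (m.choose (k + 1) : ℚ)) +
        (m + 1 - k) * al m k * (((m : ℚ) + 1) * (m.choose k : ℚ)) := by ring
    rw [this, e1, e2]; ring
  · rw [al_eq_zero (m + 1) (k + 1) (by omega), al_eq_zero m (k + 1) (by omega),
      al_eq_zero m k (by omega)]
    ring

theorem al_zero_right (m : ℕ) : al m 0 = 1 := by
  unfold al; rw [a_zero_right]; simp

theorem lc_step (x0 x1 x2 x3 : ℚ) (h13 : x1 * x3 ≤ x2 ^ 2)
    (h03 : x0 * x3 ≤ x1 * x2) (h02 : x0 * x2 ≤ x1 ^ 2) :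
    (x1 + x0) * (x3 + x2) ≤ (x2 + x1) ^ 2 := by nlinarith

theorem al_lc (m : ℕ) : ∀ k, al m k * al m (k + 2) ≤ (al m (k + 1)) ^ 2 := by
  induction m with
  | zero => intro k; rw [al_eq_zero 0 (k + 2) (by omega), mul_zero]; positivity
  | succ m ih =>
    have cross : ∀ k, al m k * al m (k + 3) ≤ al m (k + 1) * al m (k + 2) := by
      intro k
      by_cases hk : k + 3 ≤ m
      · have p0 := al_pos m k (by omega)
        have p1 := al_pos m (k + 1) (by omega)
        have p2 := al_pos m (k + 2) (by omega)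
        have p3 := al_pos m (k + 3) hk
        have h1 := ih k
        have h2 := ih (k + 1)
        rw [show k + 1 + 2 = k + 3 by ring, show k + 1 + 1 = k + 2 by ring] at h2
        have h3 : (al m k * al m (k + 2)) * (al m (k + 1) * al m (k + 3)) ≤
            (al m (k + 1)) ^ 2 * (al m (k + 2)) ^ 2 :=
          mul_le_mul h1 h2 (by positivity) (by positivity)
        have h4 : (al m k * al m (k + 3)) * (al m (k + 1) * al m (k + 2)) ≤
            (al m (k + 1) * al m (k + 2)) * (al m (k + 1) * al m (k + 2)) := by nlinarith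
        exact le_of_mul_le_mul_right h4 (by positivity)
      · rw [al_eq_zero m (k + 3) (by omega), mul_zero]
        exact mul_nonneg (al_nonneg _ _) (al_nonneg _ _)
    intro k
    have hmpos : (0 : ℚ) < (m : ℚ) + 1 := by positivity
    have hsq : (0 : ℚ) < ((m : ℚ) + 1) ^ 2 := by positivity
    rw [← mul_le_mul_iff_of_pos_left hsq]
    cases k with
    | zero =>
      have r1 := al_rec m 0
      have r2 := al_rec m 1
      have e1 : ((m : ℚ) + 1) ^ 2 * (al (m + 1) 0 * al (m + 1) (0 + 2)) =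
          ((m + 1) * al m 0) * (((m : ℚ) + 1) * al (m + 1) (1 + 1)) := by
        rw [al_zero_right, al_zero_right]; ring
      have e2 : ((m : ℚ) + 1) ^ 2 * (al (m + 1) (0 + 1)) ^ 2 =
          (((m : ℚ) + 1) * al (m + 1) (0 + 1)) ^ 2 := by ring
      rw [e1, e2, r1, r2, al_zero_right]
      have h1 := ih 0
      rw [al_zero_right, show 0 + 2 = 2 by rfl, show 0 + 1 = 1 by rfl] at h1
      rw [show 0 + 1 = 1 by rfl, show 1 + 1 = 2 by rfl]
      push_cast
      rcases Nat.eq_zero_or_pos m with hm | hm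
      · subst hm
        rw [al_eq_zero 0 1 (by omega), al_eq_zero 0 2 (by omega)]
        norm_num
      · have hm' : (1 : ℚ) ≤ m := by exact_mod_cast hm
        have n1 := al_nonneg m 1
        have n2 := al_nonneg m 2
        -- (m+1) * (3 (m-1) x2 + 2 m x1) ≤ (2 m x1 + (m+1))^2
        have h3 : ((m : ℚ) + 1) * (3 * (m - 1)) * al m 2 ≤ (2 * m) ^ 2 * (al m 1) ^ 2 := by
          have h4 : ((m : ℚ) + 1) * (3 * (m - 1)) ≤ (2 * m) ^ 2 := by nlinarith
          calc ((m : ℚ) + 1) * (3 * (m - 1)) * al m 2 ≤ (2 * m) ^ 2 * al m 2 :=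
                mul_le_mul_of_nonneg_right h4 n2
            _ ≤ (2 * m) ^ 2 * (al m 1) ^ 2 := by
                apply mul_le_mul_of_nonneg_left _ (by positivity)
                linarith
        have h5 : 0 ≤ (m : ℚ) * al m 1 := by positivity
        nlinarith [mul_nonneg (by linarith : (0 : ℚ) ≤ (m : ℚ) + 1) h5]
    | succ j =>
      have r1 := al_rec m j
      have r2 := al_rec m (j + 1)
      have r3 := al_rec m (j + 2)
      have e1 : ((m : ℚ) + 1) ^ 2 * (al (m + 1) (j + 1) * al (m + 1) (j + 1 + 2)) =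
          (((m : ℚ) + 1) * al (m + 1) (j + 1)) * (((m : ℚ) + 1) * al (m + 1) (j + 2 + 1)) := by
        rw [show j + 1 + 2 = j + 2 + 1 by ring]; ring
      have e2 : ((m : ℚ) + 1) ^ 2 * (al (m + 1) (j + 1 + 1)) ^ 2 =
          (((m : ℚ) + 1) * al (m + 1) (j + 1 + 1)) ^ 2 := by ring
      rw [e1, e2, r1, r2, r3]
      rw [show j + 1 + 1 = j + 2 by ring, show j + 2 + 1 = j + 3 by ring]
      push_cast
      by_cases hj : j + 2 ≤ m
      · have hj' : (j : ℚ) + 2 ≤ m := by exact_mod_cast hj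
        have hj0 : (0 : ℚ) ≤ j := by positivity
        have n0 := al_nonneg m j
        have n1 := al_nonneg m (j + 1)
        have n2 := al_nonneg m (j + 2)
        have n3 := al_nonneg m (j + 3)
        have i1 := ih j
        have i2 := ih (j + 1)
        rw [show j + 1 + 2 = j + 3 by ring, show j + 1 + 1 = j + 2 by ring] at i2
        have i3 := cross j
        -- write `m = j + 2 + r`
        obtain ⟨r, hr0, hr⟩ : ∃ r : ℚ, 0 ≤ r ∧ (m : ℚ) = j + 2 + r :=
          ⟨m - j - 2, by linarith, by ring⟩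
        have hp13 : ((j : ℚ) + 2) * (m - j) * ((j + 4) * (m - j - 2)) ≤
            ((j + 3) * (m - j - 1)) ^ 2 := by
          rw [hr, ← sub_nonneg]
          have : ((j + 3) * ((j : ℚ) + 2 + r - j - 1)) ^ 2 -
              ((j : ℚ) + 2) * (j + 2 + r - j) * ((j + 4) * (j + 2 + r - j - 2)) =
              j ^ 2 + 6 * j + 8 + (r + 1) ^ 2 := by ring
          rw [this]; positivity
        have hp02 : ((j : ℚ) + 1) * (m + 1 - j) * ((j + 3) * (m - j - 1)) ≤
            ((j + 2) * (m - j)) ^ 2 := by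
          rw [hr, ← sub_nonneg]
          have : ((j + 2) * ((j : ℚ) + 2 + r - j)) ^ 2 -
              ((j : ℚ) + 1) * (j + 2 + r + 1 - j) * ((j + 3) * (j + 2 + r - j - 1)) =
              j ^ 2 + 4 * j + 3 + (r + 2) ^ 2 := by ring
          rw [this]; positivity
        have hp03 : ((j : ℚ) + 1) * (m + 1 - j) * ((j + 4) * (m - j - 2)) ≤
            ((j + 2) * (m - j)) * ((j + 3) * (m - j - 1)) := by
          rw [hr, ← sub_nonneg]
          have : ((j + 2) * ((j : ℚ) + 2 + r - j)) * ((j + 3) * (j + 2 + r - j - 1)) -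
              ((j : ℚ) + 1) * (j + 2 + r + 1 - j) * ((j + 4) * (j + 2 + r - j - 2)) =
              2 * (j ^ 2 + 5 * j + 4) + 2 * (r ^ 2 + 3 * r + 2) := by ring
          rw [this]; positivity
        have q0 : (0 : ℚ) ≤ (j + 1) * (m + 1 - j) := mul_nonneg (by linarith) (by linarith)
        have q1 : (0 : ℚ) ≤ (j + 2) * (m - j) := mul_nonneg (by linarith) (by linarith)
        have q2 : (0 : ℚ) ≤ (j + 3) * (m - j - 1) := mul_nonneg (by linarith) (by linarith)
        have q3 : (0 : ℚ) ≤ (j + 4) * (m - j - 2) := mul_nonneg (by linarith) (by linarith)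
        have c13 : ((j + 2) * (m - j) * al m (j + 1)) * ((j + 4) * (m - j - 2) * al m (j + 3)) ≤
            ((j + 3) * (m - j - 1) * al m (j + 2)) ^ 2 := by
          have := mul_le_mul hp13 i2 (mul_nonneg n1 n3) (sq_nonneg _)
          calc _ = ((j : ℚ) + 2) * (m - j) * ((j + 4) * (m - j - 2)) *
                (al m (j + 1) * al m (j + 3)) := by ring
            _ ≤ _ := this
            _ = _ := by ring
        have c02 : ((j + 1) * (m + 1 - j) * al m j) * ((j + 3) * (m - j - 1) * al m (j + 2)) ≤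
            ((j + 2) * (m - j) * al m (j + 1)) ^ 2 := by
          have := mul_le_mul hp02 i1 (mul_nonneg n0 n2) (sq_nonneg _)
          calc _ = ((j : ℚ) + 1) * (m + 1 - j) * ((j + 3) * (m - j - 1)) *
                (al m j * al m (j + 2)) := by ring
            _ ≤ _ := this
            _ = _ := by ring
        have c03 : ((j + 1) * (m + 1 - j) * al m j) * ((j + 4) * (m - j - 2) * al m (j + 3)) ≤
            ((j + 2) * (m - j) * al m (j + 1)) * ((j + 3) * (m - j - 1) * al m (j + 2)) := by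
          have := mul_le_mul hp03 i3 (mul_nonneg n0 n3) (mul_nonneg q1 q2)
          calc _ = ((j : ℚ) + 1) * (m + 1 - j) * ((j + 4) * (m - j - 2)) *
                (al m j * al m (j + 3)) := by ring
            _ ≤ _ := this
            _ = _ := by ring
        have := lc_step _ _ _ _ c13 c03 c02
        have t1 : ((j : ℚ) + 1 + 2) * (m - (j + 1)) = (j + 3) * (m - j - 1) := by ring
        have t2 : ((j : ℚ) + 1 + 1) * (m + 1 - (j + 1)) = (j + 2) * (m - j) := by ring
        have t3 : ((j : ℚ) + 2 + 2) * (m - (j + 2)) = (j + 4) * (m - j - 2) := by ring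
        have t4 : ((j : ℚ) + 2 + 1) * (m + 1 - (j + 2)) = (j + 3) * (m - j - 1) := by ring
        rw [t1, t2, t3, t4]
        exact this
      · rw [al_eq_zero m (j + 2) (by omega), al_eq_zero m (j + 3) (by omega)]
        simp only [mul_zero, add_zero]
        positivity

/-- ultra-log-concavity of the Eulerian numbers in integral form -/
theorem ulc (m k : ℕ) (h : k + 2 ≤ m) :
    ((k : ℤ) + 2) * (m - k) * (a m k * a m (k + 2)) ≤
      (k + 1) * (m - k - 1) * (a m (k + 1)) ^ 2 := by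
  have hlc := al_lc m k
  have c0 : (0 : ℚ) < (m.choose k : ℚ) := by exact_mod_cast Nat.choose_pos (by omega)
  have c1 : (0 : ℚ) < (m.choose (k + 1) : ℚ) := by exact_mod_cast Nat.choose_pos (by omega)
  have c2 : (0 : ℚ) < (m.choose (k + 2) : ℚ) := by exact_mod_cast Nat.choose_pos (by omega)
  have f0 : (a m k : ℚ) = al m k * (m.choose k : ℚ) := by unfold al; field_simp
  have f1 : (a m (k + 1) : ℚ) = al m (k + 1) * (m.choose (k + 1) : ℚ) := by unfold al; field_simp
  have f2 : (a m (k + 2) : ℚ) = al m (k + 2) * (m.choose (k + 2) : ℚ) := by unfold al; field_simp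
  have g1 : (m.choose (k + 1) : ℚ) * (k + 1) = m.choose k * (m - k) := by
    have h1 : (m.choose (k + 1)) * (k + 1) = m.choose k * (m - k) := Nat.choose_succ_right_eq m k
    have h3 : (((m - k : ℕ)) : ℚ) = (m : ℚ) - k := by
      push_cast [Nat.cast_sub (by omega : k ≤ m)]; ring
    rw [← h3]; exact_mod_cast h1
  have g2 : (m.choose (k + 2) : ℚ) * (k + 2) = m.choose (k + 1) * (m - k - 1) := by
    have h1 : (m.choose (k + 1 + 1)) * (k + 1 + 1) = m.choose (k + 1) * (m - (k + 1)) :=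
      Nat.choose_succ_right_eq m (k + 1)
    have h3 : (((m - (k + 1) : ℕ)) : ℚ) = (m : ℚ) - k - 1 := by
      push_cast [Nat.cast_sub (by omega : k + 1 ≤ m)]; ring
    rw [← h3]; exact_mod_cast h1
  have hQ : ((k : ℚ) + 2) * (m - k) * ((a m k : ℚ) * a m (k + 2)) ≤
      (k + 1) * (m - k - 1) * ((a m (k + 1) : ℚ)) ^ 2 := by
    rw [f0, f1, f2]
    have e1 : ((k : ℚ) + 2) * (m - k) * (al m k * (m.choose k : ℚ) * (al m (k + 2) *
        (m.choose (k + 2) : ℚ))) =
        (m.choose k * (m - k)) * ((m.choose (k + 2) : ℚ) * (k + 2)) * (al m k * al m (k + 2)) := by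
      ring
    have e2 : ((k : ℚ) + 1) * (m - k - 1) * (al m (k + 1) * (m.choose (k + 1) : ℚ)) ^ 2 =
        ((m.choose (k + 1) : ℚ) * (k + 1)) * (m.choose (k + 1) * (m - k - 1)) *
          (al m (k + 1)) ^ 2 := by ring
    rw [e1, e2, ← g1, ← g2]
    apply mul_le_mul_of_nonneg_left hlc
    positivity
  exact_mod_cast hQ

end Pool.Agent.SynDes
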