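import Mathlib
import Pool.Agent.MP_ab4491_co.Bounds

set_option autoImplicit false

namespace Pool.Agent.SynDes

open Finset Polynomial

theorem evenDes_eq (m k : ℕ) : (evenDes (m + 1) k : ℤ) =
    ∑ π : Equiv.Perm (Fin (m + 1)), if Equiv.Perm.sign π = 1 ∧ des π = k then 1 else 0 := by
  classical
  unfold evenDes
  rw [Nat.card_eq_fintype_card, Fintype.card_subtype, Finset.card_filter]
  push_cast
  apply Finset.sum_congr rfl
  intro π _
  simp only [Equiv.Perm.mem_alternatingGroup]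

theorem oddDes_eq (m k : ℕ) : (oddDes (m + 1) k : ℤ) =
    ∑ π : Equiv.Perm (Fin (m + 1)), if Equiv.Perm.sign π ≠ 1 ∧ des π = k then 1 else 0 := by
  classical
  unfold oddDes
  rw [Nat.card_eq_fintype_card, Fintype.card_subtype, Finset.card_filter]
  push_cast
  apply Finset.sum_congr rfl
  intro π _
  simp only [Equiv.Perm.mem_alternatingGroup, ne_eq]

theorem a_eq_sum (m k : ℕ) : a m k =
    ∑ π : Equiv.Perm (Fin (m + 1)), if des π = k then 1 else 0 := by
  unfold a A T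
  rw [finsetSum_coeff]
  apply Finset.sum_congr rfl
  intro π _
  rw [one_mul, coeff_X_pow]
  simp [eq_comm]

theorem d_eq_sum (m k : ℕ) : d m k =
    ∑ π : Equiv.Perm (Fin (m + 1)), (Equiv.Perm.sign π : ℤ) * (if des π = k then 1 else 0) := by
  unfold d D Ts
  rw [finsetSum_coeff]
  apply Finset.sum_congr rfl
  intro π _
  rw [one_mul, coeff_intCast_mul, coeff_X_pow]
  simp [eq_comm]

theorem add_eq (m k : ℕ) : (evenDes (m + 1) k : ℤ) + oddDes (m + 1) k = a m k := by
  rw [evenDes_eq, oddDes_eq, a_eq_sum, ← Finset.sum_add_distrib]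
  apply Finset.sum_congr rfl
  intro π _
  by_cases h1 : Equiv.Perm.sign π = 1 <;> by_cases h2 : des π = k <;> simp [h1, h2]

theorem sub_eq (m k : ℕ) : (evenDes (m + 1) k : ℤ) - oddDes (m + 1) k = d m k := by
  rw [evenDes_eq, oddDes_eq, d_eq_sum, ← Finset.sum_sub_distrib]
  apply Finset.sum_congr rfl
  intro π _
  rcases Int.units_eq_one_or (Equiv.Perm.sign π) with h1 | h1 <;>
    by_cases h2 : des π = k <;> simp [h1, h2]

/-- inequality at the left end -/
theorem left_end (m : ℕ) (hm : 2 ≤ m) :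
    (a m 2 + |d m 2|) * (a m 0 + |d m 0|) ≤ (a m 1 - |d m 1|) ^ 2 := by
  rw [a_zero_right, d_zero_right, abs_one]
  have ha1 : a 1 1 = 1 := by
    have := a_succ_succ 0 0
    rw [a_zero_succ 0, a_zero_zero] at this
    simpa using this
  have ha2 : a 2 1 = 4 := by
    have := a_succ_succ 1 0
    rw [ha1, a_zero_right] at this
    norm_num at this
    exact this
  have ha3 : a 3 1 = 11 := by
    have := a_succ_succ 2 0
    rw [ha2, a_zero_right] at this
    norm_num at this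
    exact this
  have hd1 : d 1 1 = -1 := by
    have := d_odd_succ 0 0
    rw [d_zero_succ 0, d_zero_zero] at this
    simpa using this
  have hd2 : d 2 1 = 0 := by
    have := d_even_succ 0 0
    rw [show 2 * 0 + 1 = 1 by rfl, hd1, d_zero_right] at this
    norm_num at this
    exact this
  have hd3 : d 3 1 = -1 := by
    have := d_odd_succ 1 0
    rw [show 2 * 1 = 2 by rfl, show 2 + 1 = 3 by rfl, show 0 + 1 = 1 by rfl, hd2,
      d_zero_right] at this
    rw [this]; norm_num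
  rcases Nat.lt_or_ge m 4 with h | h
  · have hm' : m = 2 ∨ m = 3 := by omega
    rcases hm' with rfl | rfl
    · rw [a_symm 2 2 0 (by omega), d_symm 2 2 0 (by omega), a_zero_right, d_zero_right, ha2, hd2]
      norm_num
    · rw [a_symm 3 2 1 (by omega), d_symm 3 2 1 (by omega), ha3, hd3]
      norm_num
  · have b1 := bound m 1 (by omega) (by omega)
    have b2 := bound m 2 (by omega) (by omega)
    have hlc : 4 * a m 2 ≤ (a m 1) ^ 2 := by
      obtain ⟨r, rfl⟩ : ∃ r, m = r + 1 := ⟨m - 1, by omega⟩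
      exact first_lc r
    have h1 := a_nonneg m 1
    have h2 := a_nonneg m 2
    have hm4 : (4 : ℤ) ≤ m := by exact_mod_cast h
    have p1 := abs_nonneg (d m 1)
    have p2 := abs_nonneg (d m 2)
    -- multiply by `(m+1)^2`
    have hsq : (0 : ℤ) < ((m : ℤ) + 1) ^ 2 := by positivity
    rw [← mul_le_mul_iff_of_pos_left hsq]
    have q1 : (m : ℤ) * a m 1 ≤ ((m : ℤ) + 1) * (a m 1 - |d m 1|) := by nlinarith
    have q2 : ((m : ℤ) * a m 1) ^ 2 ≤ (((m : ℤ) + 1) * (a m 1 - |d m 1|)) ^ 2 := by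
      apply pow_le_pow_left₀ _ q1
      positivity
    have q3 : ((m : ℤ) + 1) * (a m 2 + |d m 2|) ≤ ((m : ℤ) + 2) * a m 2 := by nlinarith
    have q4 : ((m : ℤ) + 1) ^ 2 * ((a m 2 + |d m 2|) * (1 + 1)) ≤
        2 * ((m : ℤ) + 1) * (((m : ℤ) + 2) * a m 2) := by
      have := mul_le_mul_of_nonneg_left q3 (by linarith : (0 : ℤ) ≤ 2 * ((m : ℤ) + 1))
      calc _ = 2 * ((m : ℤ) + 1) * (((m : ℤ) + 1) * (a m 2 + |d m 2|)) := by ring
        _ ≤ _ := this
    have q5 : 2 * ((m : ℤ) + 1) * (((m : ℤ) + 2) * a m 2) ≤ (m : ℤ) ^ 2 * (4 * a m 2) := by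
      have h3 : 2 * ((m : ℤ) + 1) * ((m : ℤ) + 2) ≤ 4 * (m : ℤ) ^ 2 := by nlinarith
      have := mul_le_mul_of_nonneg_right h3 h2
      nlinarith
    have q6 : (m : ℤ) ^ 2 * (4 * a m 2) ≤ (m : ℤ) ^ 2 * (a m 1) ^ 2 :=
      mul_le_mul_of_nonneg_left hlc (by positivity)
    calc _ ≤ _ := q4
      _ ≤ _ := q5
      _ ≤ _ := q6
      _ = ((m : ℤ) * a m 1) ^ 2 := by ring
      _ ≤ _ := q2
      _ = _ := by ring

theorem main_ineq (m k : ℕ) (hk1 : 1 ≤ k) (hk2 : k + 1 ≤ m) :
    (a m (k + 1) + |d m (k + 1)|) * (a m (k - 1) + |d m (k - 1)|) ≤ (a m k - |d m k|) ^ 2 := by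
  by_cases hl : k = 1
  · subst hl
    exact left_end m (by omega)
  by_cases hr : k + 1 = m
  · rw [a_symm m (k + 1) 0 (by omega), d_symm m (k + 1) 0 (by omega), a_symm m (k - 1) 2 (by omega),
      d_symm m (k - 1) 2 (by omega), a_symm m k 1 (by omega), d_symm m k 1 (by omega), mul_comm]
    exact left_end m (by omega)
  · obtain ⟨j, rfl⟩ : ∃ j, k = j + 1 := ⟨k - 1, by omega⟩
    rw [show j + 1 - 1 = j by omega, show j + 1 + 1 = j + 2 by ring]
    have b0 := bound m j (by omega) (by omega)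
    have b1 := bound m (j + 1) (by omega) (by omega)
    have b2 := bound m (j + 2) (by omega) (by omega)
    have hu := ulc m j (by omega)
    have h0 := a_nonneg m j
    have h1 := a_nonneg m (j + 1)
    have h2 := a_nonneg m (j + 2)
    have p0 := abs_nonneg (d m j)
    have p1 := abs_nonneg (d m (j + 1))
    have p2 := abs_nonneg (d m (j + 2))
    have hj : (j : ℤ) + 2 ≤ m := by exact_mod_cast (by omega : j + 2 ≤ m)
    have hj0 : (0 : ℤ) ≤ j := by positivity
    have hsq : (0 : ℤ) < ((m : ℤ) + 1) ^ 2 := by positivity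
    rw [← mul_le_mul_iff_of_pos_left hsq]
    have q0 : ((m : ℤ) + 1) * (a m j + |d m j|) ≤ ((m : ℤ) + 2) * a m j := by nlinarith
    have q2 : ((m : ℤ) + 1) * (a m (j + 2) + |d m (j + 2)|) ≤ ((m : ℤ) + 2) * a m (j + 2) := by
      nlinarith
    have q1 : (m : ℤ) * a m (j + 1) ≤ ((m : ℤ) + 1) * (a m (j + 1) - |d m (j + 1)|) := by
      nlinarith
    have q1' : ((m : ℤ) * a m (j + 1)) ^ 2 ≤
        (((m : ℤ) + 1) * (a m (j + 1) - |d m (j + 1)|)) ^ 2 := by
      apply pow_le_pow_left₀ _ q1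
      positivity
    have q3 : (((m : ℤ) + 1) * (a m (j + 2) + |d m (j + 2)|)) *
        (((m : ℤ) + 1) * (a m j + |d m j|)) ≤
        (((m : ℤ) + 2) * a m (j + 2)) * (((m : ℤ) + 2) * a m j) :=
      mul_le_mul q2 q0 (by positivity) (by positivity)
    -- final comparison
    have hP : 0 ≤ a m j * a m (j + 2) := mul_nonneg h0 h2
    have hQ : 0 ≤ (a m (j + 1)) ^ 2 := sq_nonneg _
    obtain ⟨r, hr0, hr⟩ : ∃ r : ℤ, 1 ≤ r ∧ (m : ℤ) = j + 1 + r :=
      ⟨m - j - 1, by linarith, by ring⟩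
    have hu' : ((j : ℤ) + 2) * (r + 1) * (a m j * a m (j + 2)) ≤
        (j + 1) * r * (a m (j + 1)) ^ 2 := by
      have e1 : (m : ℤ) - j = r + 1 := by rw [hr]; ring
      have e2 : (m : ℤ) - j - 1 = r := by rw [hr]; ring
      rw [e1, ← e2, sub_add_cancel] at hu
      rw [e1, show r + 1 - 1 = r by ring] at hu
      exact hu
    have q4 : ((m : ℤ) + 2) ^ 2 * (a m j * a m (j + 2)) ≤ (m : ℤ) ^ 2 * (a m (j + 1)) ^ 2 := by
      have hc : (0 : ℤ) < ((j : ℤ) + 2) * (r + 1) := by positivity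
      rw [← mul_le_mul_iff_of_pos_left hc]
      have s1 := mul_le_mul_of_nonneg_left hu' (sq_nonneg ((m : ℤ) + 2))
      have s2 : ((m : ℤ) + 2) ^ 2 * ((j + 1) * r) ≤ ((j + 2) * (r + 1)) * (m : ℤ) ^ 2 := by
        rw [hr]
        have : 0 ≤ ((j : ℤ) + 1 + r + 1) * ((j : ℤ) + 1 - r) ^ 2 := by positivity
        nlinarith [this]
      have s3 := mul_le_mul_of_nonneg_right s2 hQ
      calc _ = ((m : ℤ) + 2) ^ 2 * (((j : ℤ) + 2) * (r + 1) * (a m j * a m (j + 2))) := by ring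
        _ ≤ _ := s1
        _ = ((m : ℤ) + 2) ^ 2 * ((j + 1) * r) * (a m (j + 1)) ^ 2 := by ring
        _ ≤ _ := s3
        _ = _ := by ring
    calc _ = (((m : ℤ) + 1) * (a m (j + 2) + |d m (j + 2)|)) *
        (((m : ℤ) + 1) * (a m j + |d m j|)) := by ring
      _ ≤ _ := q3
      _ = ((m : ℤ) + 2) ^ 2 * (a m j * a m (j + 2)) := by ring
      _ ≤ _ := q4
      _ = ((m : ℤ) * a m (j + 1)) ^ 2 := by ring
      _ ≤ _ := q1'
      _ = _ := by ring

theorem two_mul_min' (x y : ℤ) : 2 * min x y = (x + y) - |x - y| := by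
  rcases le_total x y with h | h
  · rw [min_eq_left h, abs_of_nonpos (by linarith)]; ring
  · rw [min_eq_right h, abs_of_nonneg (by linarith)]; ring

theorem two_mul_max' (x y : ℤ) : 2 * max x y = (x + y) + |x - y| := by
  rcases le_total x y with h | h
  · rw [max_eq_right h, abs_of_nonpos (by linarith)]; ring
  · rw [max_eq_left h, abs_of_nonneg (by linarith)]; ring

theorem strongSync (n : ℕ) (hn : 1 ≤ n) :
    StronglySynchronised (n - 1) (evenDes n) (oddDes n) := by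
  obtain ⟨m, rfl⟩ : ∃ m, n = m + 1 := ⟨n - 1, by omega⟩
  intro k hk1 hk2
  have hk2' : k + 1 ≤ m := by omega
  have h := main_ineq m k hk1 hk2'
  rw [← add_eq, ← sub_eq, ← add_eq, ← sub_eq, ← add_eq, ← sub_eq, ← two_mul_min', ← two_mul_max',
    ← two_mul_max'] at h
  have h2 : (max (evenDes (m + 1) (k + 1) : ℤ) (oddDes (m + 1) (k + 1))) *
      (max (evenDes (m + 1) (k - 1) : ℤ) (oddDes (m + 1) (k - 1))) ≤
      (min (evenDes (m + 1) k : ℤ) (oddDes (m + 1) k)) ^ 2 := by nlinarith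
  exact_mod_cast h2

end Pool.Agent.SynDes
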